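import Pool.Agent.Run7.h619.PR.Iface

/-!
# Piece UP of project PROD (helper619): uniform estimates at the periodic points of `f`
-/

set_option autoImplicit false

open scoped Manifold ContDiff Topology
open Filter Set Metric

universe u v w

namespace Run7.h499.PR

open Pool.Agent.H718R2.G Pool.Agent.TH80.OMS Run7.h619.AA Run7.h619.PR

/-! ### Linear algebra -/

theorem expand {k : ℕ} (R : V k →L[ℝ] V k) (w : V k) (j : Fin k) :
    R w j = ∑ l, w l * R (EuclideanSpace.single l 1) j := by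
  have h := (EuclideanSpace.basisFun (Fin k) ℝ).sum_repr w
  have h2 : R w = ∑ l, w l • R (EuclideanSpace.single l 1) := by
    conv_lhs => rw [← h]
    rw [map_sum]
    refine Finset.sum_congr rfl fun l _ => ?_
    rw [map_smul, EuclideanSpace.basisFun_apply, EuclideanSpace.basisFun_repr]
  rw [h2]
  simp

theorem apply_le_norm {k : ℕ} (w : V k) (j : Fin k) : |w j| ≤ ‖w‖ := by
  have := PiLp.norm_apply_le w j
  simpa using this

theorem norm_single {k : ℕ} (i : Fin k) : ‖(EuclideanSpace.single i (1:ℝ) : V k)‖ = 1 := by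
  simp

/-- lower bound for the diagonal entries of an upper triangular map -/
theorem dg_lower {k : ℕ} (R : V k →L[ℝ] V k) (hU : UT R) (hp : ∀ i, 0 < dg R i) (L : ℝ)
    (hL : ∀ w, ‖w‖ ≤ L * ‖R w‖) (i : Fin k) : 1 ≤ L * dg R i := by
  have hinj : Function.Injective (R : V k →ₗ[ℝ] V k) := by
    rw [injective_iff_map_eq_zero]
    intro w hw
    have h1 := hL w
    have h2 : R w = 0 := hw
    rw [h2, norm_zero, mul_zero] at h1
    exact norm_le_zero_iff.1 h1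
  have hsurj := LinearMap.injective_iff_surjective.1 hinj
  obtain ⟨w, hw⟩ := hsurj (EuclideanSpace.single i 1)
  have hw' : R w = EuclideanSpace.single i 1 := hw
  have key : ∀ j : Fin k, (∀ l, j < l → w l = 0) → R w j = w j * dg R j := by
    intro j hj
    rw [expand, Finset.sum_eq_single j]
    · rfl
    · intro l _ hl
      rcases lt_or_gt_of_ne hl with h | h
      · rw [hU j l h, mul_zero]
      · rw [hj l h, zero_mul]
    · intro h; exact absurd (Finset.mem_univ j) h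
  have hz : ∀ j : Fin k, i < j → w j = 0 := by
    intro j
    induction j using WellFoundedGT.induction with
    | ind j ih =>
      intro hij
      have h1 := key j (fun l hl => ih l hl (hij.trans hl))
      rw [hw'] at h1
      have h2 : (EuclideanSpace.single i (1:ℝ) : V k) j = 0 := by
        simp [hij.ne']
      rw [h2] at h1
      rcases mul_eq_zero.1 h1.symm with h | h
      · exact h
      · exact absurd h (hp j).ne'
  have h1 := key i hz
  rw [hw'] at h1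
  have h2 : (EuclideanSpace.single i (1:ℝ) : V k) i = 1 := by simp
  rw [h2] at h1
  have h3 := hL w
  rw [hw', norm_single, mul_one] at h3
  have h4 : w i ≤ L := (le_abs_self _).trans ((apply_le_norm w i).trans h3)
  calc (1:ℝ) = w i * dg R i := h1
    _ ≤ L * dg R i := mul_le_mul_of_nonneg_right h4 (hp i).le

theorem dg_log {k : ℕ} (R : V k →L[ℝ] V k) (hU : UT R) (hp : ∀ i, 0 < dg R i) (L : ℝ) (h1 : 1 ≤ L)
    (hL : ∀ w, ‖w‖ ≤ L * ‖R w‖) (hL' : ∀ w, ‖R w‖ ≤ L * ‖w‖) (i : Fin k) :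
    |Real.log (dg R i)| ≤ Real.log L := by
  have hL0 : 0 < L := by linarith
  have ha := dg_lower R hU hp L hL i
  have hb : dg R i ≤ L := by
    have h2 := hL' (EuclideanSpace.single i 1)
    rw [norm_single, mul_one] at h2
    exact (le_abs_self _).trans ((apply_le_norm _ i).trans h2)
  rw [abs_le]
  constructor
  · have h3 := Real.log_nonneg ha
    rw [Real.log_mul hL0.ne' (hp i).ne'] at h3
    linarith
  · exact Real.log_le_log (hp i) hb

/-! ### Growth -/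

theorem gr_succ {k : ℕ} (R : ℕ → (V k →L[ℝ] V k)) (i : Fin k) (t : ℕ) :
    gr R i (t + 1) = gr R i t + Real.log (dg (R t) i) := by
  unfold gr; rw [Finset.sum_range_succ]

theorem step_bound (g : ℕ → ℝ) (lam : ℝ) (hg : ∀ t, |g (t + 1) - g t| ≤ lam) (a m : ℕ) :
    |g (a + m) - g a| ≤ m * lam := by
  induction m with
  | zero => simp
  | succ m ih =>
    have h1 := hg (a + m)
    have h2 : g (a + (m + 1)) - g a = (g (a + m + 1) - g (a + m)) + (g (a + m) - g a) := by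
      rw [← add_assoc]; ring
    rw [h2]
    push_cast
    calc _ ≤ |g (a + m + 1) - g (a + m)| + |g (a + m) - g a| := abs_add_le _ _
      _ ≤ lam + m * lam := add_le_add h1 ih
      _ = (m + 1) * lam := by ring

theorem all_times (π : ℕ) (hπ : 1 ≤ π) (κ C lam : ℝ) (hκ : 0 < κ) (hlam : 0 ≤ lam) (g : ℕ → ℝ)
    (hg : ∀ t, |g (t + 1) - g t| ≤ lam) (t₁ I : ℕ)
    (h : ∀ j j' : ℕ, j ≤ j' → j' ≤ I → κ * ((j' : ℝ) - j) - C ≤ g (t₁ + π * j') - g (t₁ + π * j)) :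
    ∀ a b, t₁ ≤ a → a ≤ b → b ≤ t₁ + π * I →
      κ / π * ((b : ℝ) - a) - (C + κ + 2 * π * lam) ≤ g b - g a := by
  intro a b h1 h2 h3
  have hπ0 : 0 < π := hπ
  set j := (a - t₁) / π with hj
  set j' := (b - t₁) / π with hj'
  set ra := (a - t₁) % π with hra
  set rb := (b - t₁) % π with hrb
  have ea : a = t₁ + π * j + ra := by
    have : π * j + ra = a - t₁ := Nat.div_add_mod (a - t₁) π
    omega
  have eb : b = t₁ + π * j' + rb := by
    have : π * j' + rb = b - t₁ := Nat.div_add_mod (b - t₁) π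
    omega
  have hra' : ra < π := Nat.mod_lt _ hπ0
  have hrb' : rb < π := Nat.mod_lt _ hπ0
  have hjj : j ≤ j' := Nat.div_le_div_right (by omega)
  have hjI : j' ≤ I := by
    have : (b - t₁) / π ≤ (π * I) / π := Nat.div_le_div_right (by omega)
    rwa [Nat.mul_div_cancel_left _ hπ0] at this
  have h4 := h j j' hjj hjI
  have h5 := step_bound g lam hg (t₁ + π * j) ra
  have h6 := step_bound g lam hg (t₁ + π * j') rb
  rw [← ea] at h5
  rw [← eb] at h6
  have hπR : (0:ℝ) < π := by exact_mod_cast hπ0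
  have h7 : (ra : ℝ) * lam ≤ π * lam :=
    mul_le_mul_of_nonneg_right (by exact_mod_cast hra'.le) hlam
  have h8 : (rb : ℝ) * lam ≤ π * lam :=
    mul_le_mul_of_nonneg_right (by exact_mod_cast hrb'.le) hlam
  have h9 : ((b:ℝ) - a) ≤ π * ((j':ℝ) - j) + π := by
    have e1 : (a:ℝ) = t₁ + π * j + ra := by exact_mod_cast ea
    have e2 : (b:ℝ) = t₁ + π * j' + rb := by exact_mod_cast eb
    have e3 : (rb:ℝ) ≤ π := by exact_mod_cast hrb'.le
    have e4 : (0:ℝ) ≤ ra := by positivity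
    rw [e1, e2]; linarith
  have h10 : κ / π * ((b:ℝ) - a) ≤ κ * ((j':ℝ) - j) + κ := by
    have : κ / π * ((b:ℝ) - a) ≤ κ / π * (π * ((j':ℝ) - j) + π) :=
      mul_le_mul_of_nonneg_left h9 (by positivity)
    have e : κ / π * (π * ((j':ℝ) - j) + π) = κ * ((j':ℝ) - j) + κ := by
      field_simp
    rw [e] at this
    exact this
  rw [abs_le] at h5 h6
  linarith [h5.1, h5.2, h6.1, h6.2]

/-! ### The derivative of a diffeomorphism -/

section

variable {k : ℕ} {M : Type v} [TopologicalSpace M] [ChartedSpace (V k) M] [IsManifold (𝓡 k) ∞ M]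
  {r : ℕ∞}

theorem ne0 (hr : 1 ≤ r) : ((r : ℕ∞) : WithTop ℕ∞) ≠ 0 := by
  intro h
  have h1 : r = 0 := by exact_mod_cast h
  rw [h1] at hr
  exact absurd hr (by simp)

noncomputable def De (hr : 1 ≤ r) (f : DiffM k M r) (x : M) : V k ≃L[ℝ] V k :=
  f.mfderivToContinuousLinearEquiv (ne0 hr) x

omit [IsManifold (𝓡 k) ∞ M] in
theorem De_apply (hr : 1 ≤ r) (f : DiffM k M r) (x : M) (u : V k) :
    De hr f x u = dv k f x u := rfl

theorem pull_norm (hr : 1 ≤ r) (f : DiffM k M r) (q : M → V k → ℝ) (hq : IsNormOn q) :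
    IsNormOn (fun x u => q (f x) (dv k f x u)) where
  cont := by
    have h1 : (1 : WithTop ℕ∞) ≤ ((r : ℕ∞) : WithTop ℕ∞) := by exact_mod_cast hr
    exact hq.cont.comp (f.contMDiff.continuous_tangentMap h1)
  add_le x a b := by
    rw [map_add]; exact hq.add_le _ _ _
  smul x a b := by
    rw [map_smul]; exact hq.smul _ _ _
  pos x a ha := by
    apply hq.pos
    rw [← De_apply hr f x a]
    exact (map_ne_zero_iff _ (De hr f x).injective).2 ha

end

/-! ### The dichotomy -/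

/-- Uniform growth of the diagonal entries between two times. -/
theorem dichotomy (hSIGN : S_SIGN) {Q : ℕ} {ℓ π : ℕ} {ε lam κ C : ℝ} (hπ : 1 ≤ π) (hε : 0 < ε)
    (hlam : 0 ≤ lam) (hκ : 0 < κ)
    (hcomb : ∀ (I : ℕ) (s : ℕ → ℝ)
      (c : ℕ → Fin Q), (∀ i < I, |s (i + 1) - s i| ≤ π * lam) →
      (∀ i i', i + ℓ ≤ i' → i' ≤ I → c i = c i' → ε ≤ s i' - s i) →
      ∀ i i', i ≤ i' → i' ≤ I → κ * ((i' : ℝ) - i) - C ≤ s i' - s i)
    (g : ℕ → ℝ) (hg : ∀ t, |g (t + 1) - g t| ≤ lam) (cc : ℕ → Fin Q) (t₁ t₂ : ℕ)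
    (h12 : t₁ + ℓ ≤ t₂) (hd : π ∣ t₂ - t₁) (hcol : cc t₂ = cc t₁)
    (hmain : ∀ a b : ℕ, t₁ ≤ a → a + ℓ ≤ b → b ≤ t₂ → π ∣ a - t₁ → π ∣ b - t₁ → cc b = cc a →
      ∀ m₀ m₁ : ℕ, 1 ≤ m₀ → ε * ((m₀ : ℝ) + m₁) < |m₀ * (g t₂ - g t₁) + m₁ * (g b - g a)|) :
    (∀ a b, t₁ ≤ a → a ≤ b → b ≤ t₂ →
      κ / π * ((b : ℝ) - a) - (C + κ + 2 * π * lam) ≤ g b - g a) ∨
    (∀ a b, t₁ ≤ a → a ≤ b → b ≤ t₂ →
      g b - g a ≤ (C + κ + 2 * π * lam) - κ / π * ((b : ℝ) - a)) := by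
  obtain ⟨I, hI⟩ := hd
  have ht2 : t₂ = t₁ + π * I := by omega
  have hsig : g t₂ - g t₁ ≠ 0 := (hSIGN ε (g t₂ - g t₁) (g t₂ - g t₁) hε
    (hmain t₁ t₂ le_rfl h12 le_rfl (by simp) ⟨I, hI⟩ hcol)).1
  have hret : ∀ i i' : ℕ, i + ℓ ≤ i' → i' ≤ I → cc (t₁ + π * i) = cc (t₁ + π * i') →
      (0 < g t₂ - g t₁ → ε ≤ g (t₁ + π * i') - g (t₁ + π * i)) ∧
      (g t₂ - g t₁ < 0 → g (t₁ + π * i') - g (t₁ + π * i) ≤ -ε) := by
    intro i i' h1 h2 h3
    refine (hSIGN ε (g t₂ - g t₁) (g (t₁ + π * i') - g (t₁ + π * i)) hε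
      (hmain (t₁ + π * i) (t₁ + π * i') (by omega) ?_ ?_ ?_ ?_ h3.symm)).2
    · have : π * (i + ℓ) ≤ π * i' := Nat.mul_le_mul_left _ h1
      have h4 : ℓ ≤ π * ℓ := Nat.le_mul_of_pos_left _ hπ
      rw [mul_add] at this
      omega
    · rw [ht2]
      have := Nat.mul_le_mul_left π h2
      omega
    · simp
    · simp
  have hstep : ∀ i : ℕ, |g (t₁ + π * (i + 1)) - g (t₁ + π * i)| ≤ π * lam := by
    intro i
    have := step_bound g lam hg (t₁ + π * i) π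
    rwa [show t₁ + π * i + π = t₁ + π * (i + 1) by ring] at this
  rcases lt_or_gt_of_ne hsig with hneg | hpos
  · right
    have h := hcomb I (fun j => - g (t₁ + π * j)) (fun j => cc (t₁ + π * j))
      (fun i _ => by
        have := hstep i
        rw [abs_sub_comm] at this
        show |-g (t₁ + π * (i + 1)) - -g (t₁ + π * i)| ≤ π * lam
        rwa [neg_sub_neg])
      (fun i i' h1 h2 h3 => by
        have := (hret i i' h1 h2 h3).2 hneg
        linarith)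
    have h' := all_times π hπ κ C lam hκ hlam (fun t => - g t)
      (fun t => by
        have := hg t
        rw [abs_sub_comm] at this
        show |-g (t + 1) - -g t| ≤ lam
        rwa [neg_sub_neg]) t₁ I h
    intro a b ha hab hb
    have := h' a b ha hab (by omega)
    linarith
  · left
    have h := hcomb I (fun j => g (t₁ + π * j)) (fun j => cc (t₁ + π * j))
      (fun i _ => hstep i)
      (fun i i' h1 h2 h3 => (hret i i' h1 h2 h3).1 hpos)
    have h' := all_times π hπ κ C lam hκ hlam g hg t₁ I h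
    intro a b ha hab hb
    exact h' a b ha hab (by omega)

/-! ### The piece -/

theorem iso_inj {k : ℕ} {E : V k →L[ℝ] V k} (hE : Iso E) : Function.Injective E := by
  rw [injective_iff_map_eq_zero]
  intro w hw
  have h := hE w
  rw [hw, norm_zero] at h
  exact norm_eq_zero.1 h.symm

theorem iso_surj {k : ℕ} {E : V k →L[ℝ] V k} (hE : Iso E) : Function.Surjective E := by
  have h : Function.Injective (E : V k →ₗ[ℝ] V k) := iso_inj hE
  exact LinearMap.injective_iff_surjective.1 h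

/-- Piece UP. -/
theorem t_UP : S_CH.{u, v, w} → S_QR → S_COMB → S_SIGN → S_TRI → S_UP.{u, v, w} := by
  intro hCH hQR hCOMB hSIGN hTRI k b n M B N _ _ _ _ _ _ _ _ _ _ _ _ _ _ r hr Θ f g F U π z ζ hD q hq ρ
  obtain ⟨θ, Q, ℓ, ε, col, hε, hℓ, hcmp, hmain⟩ := hCH k b n M B N r hr Θ f g F U π z ζ hD
  obtain ⟨K, hK, hKq⟩ := hcmp q hq
  obtain ⟨K', hK', hKq'⟩ := hcmp (fun x u => q (f x) (dv k f x u)) (pull_norm hr f q hq)
  have hπ : 1 ≤ π := hD.loops.pos
  obtain ⟨L, hL⟩ : ∃ L : ℝ, L = max 1 (K * K') := ⟨_, rfl⟩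
  have hL1 : 1 ≤ L := by rw [hL]; exact le_max_left _ _
  have hLK : K * K' ≤ L := by rw [hL]; exact le_max_right _ _
  have up : ∀ x u, ‖θ (f x) (dv k f x u)‖ ≤ L * ‖θ x u‖ := by
    intro x u
    calc ‖θ (f x) (dv k f x u)‖ ≤ K * q (f x) (dv k f x u) := (hKq _ _).2
      _ ≤ K * (K' * ‖θ x u‖) := mul_le_mul_of_nonneg_left (hKq' x u).1 hK.le
      _ = (K * K') * ‖θ x u‖ := by ring
      _ ≤ L * ‖θ x u‖ := mul_le_mul_of_nonneg_right hLK (norm_nonneg _)
  have lo : ∀ x u, ‖θ x u‖ ≤ L * ‖θ (f x) (dv k f x u)‖ := by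
    intro x u
    calc ‖θ x u‖ ≤ K' * q (f x) (dv k f x u) := (hKq' x u).2
      _ ≤ K' * (K * ‖θ (f x) (dv k f x u)‖) := mul_le_mul_of_nonneg_left (hKq _ _).1 hK'.le
      _ = (K * K') * ‖θ (f x) (dv k f x u)‖ := by ring
      _ ≤ L * ‖θ (f x) (dv k f x u)‖ := mul_le_mul_of_nonneg_right hLK (norm_nonneg _)
  have hlam : 0 ≤ Real.log L := Real.log_nonneg hL1
  have hπR : (0:ℝ) < π := by exact_mod_cast hπ
  obtain ⟨κ, C, hκ, hC, hcomb⟩ := hCOMB Q ℓ (π * Real.log L) ε hℓ (by positivity) hε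
  obtain ⟨N₁, hN₁⟩ := hTRI k L (κ / π) (C + κ + 2 * π * Real.log L) (|ρ| * K ^ 2) (by positivity)
  refine ⟨N₁, fun x v p hp hper horb hv hv0 => ?_⟩
  -- the chain
  obtain ⟨x', hx'⟩ : ∃ x' : ℕ → M, ∀ t : ℕ, x' t = x t := ⟨fun t => x t, fun _ => rfl⟩
  have horb' : ∀ t, f (x' t) = x' (t + 1) := by
    intro t; rw [hx', hx', horb]; push_cast; rfl
  obtain ⟨E, R, hE, hR, hdg, hmap⟩ := hQR k (fun t =>
    (θ (x' t)).symm.trans ((De hr f (x' t)).trans (θ (f (x' t)))))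
  have hmap' : ∀ t u, θ (f (x' t)) (dv k f (x' t) ((θ (x' t)).symm (E t u))) = E (t + 1) (R t u) :=
    fun t u => hmap t u
  have hch : Chain f θ x' E R := ⟨horb', hE, hR, hdg, fun t u => by rw [← horb', hmap']⟩
  have hRup : ∀ t u, ‖R t u‖ ≤ L * ‖u‖ := by
    intro t u
    have h1 := up (x' t) ((θ (x' t)).symm (E t u))
    rw [hmap', hE, ContinuousLinearEquiv.apply_symm_apply, hE] at h1
    exact h1
  have hRlo : ∀ t u, ‖u‖ ≤ L * ‖R t u‖ := by
    intro t u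
    have h1 := lo (x' t) ((θ (x' t)).symm (E t u))
    rw [hmap', hE, ContinuousLinearEquiv.apply_symm_apply, hE] at h1
    exact h1
  have hRn : ∀ t, ‖R t‖ ≤ L := fun t =>
    ContinuousLinearMap.opNorm_le_bound _ (by linarith) (hRup t)
  have hgs : ∀ i t, |gr R i (t + 1) - gr R i t| ≤ Real.log L := by
    intro i t
    rw [gr_succ, add_sub_cancel_left]
    exact dg_log (R t) (hR t) (hdg t) L hL1 (hRlo t) (hRup t) i
  -- two times with the same colour
  obtain ⟨D, hD'⟩ : ∃ D : ℕ, D = 2 * N₁ + ℓ + 1 := ⟨_, rfl⟩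
  obtain ⟨m, m', hmm, hcm⟩ : ∃ m m' : ℕ, m < m' ∧
      col (x' (m' * (p * π * D))) (E (m' * (p * π * D))) =
      col (x' (m * (p * π * D))) (E (m * (p * π * D))) := by
    obtain ⟨m, m', hne, h⟩ := Finite.exists_ne_map_eq_of_infinite
      (fun m : ℕ => col (x' (m * (p * π * D))) (E (m * (p * π * D))))
    rcases lt_or_gt_of_ne hne with h1 | h1
    · exact ⟨m, m', h1, h.symm⟩
    · exact ⟨m', m, h1, h⟩
  obtain ⟨t₁, ht₁⟩ : ∃ t₁ : ℕ, t₁ = m * (p * π * D) := ⟨_, rfl⟩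
  obtain ⟨t₂, ht₂⟩ : ∃ t₂ : ℕ, t₂ = m' * (p * π * D) := ⟨_, rfl⟩
  rw [← ht₁, ← ht₂] at hcm
  have hpD : t₁ + p * π * D ≤ t₂ := by
    rw [ht₁, ht₂]
    calc m * (p * π * D) + p * π * D = (m + 1) * (p * π * D) := by ring
      _ ≤ m' * (p * π * D) := Nat.mul_le_mul_right _ hmm
  have hpπ : 1 ≤ p * π := Nat.mul_pos hp hπ
  have hDle : D ≤ p * π * D := Nat.le_mul_of_pos_left _ hpπ
  have hd12 : π ∣ t₂ - t₁ := by
    rw [ht₁, ht₂, ← Nat.sub_mul]
    exact ⟨(m' - m) * (p * D), by ring⟩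
  obtain ⟨t₀, ht₀⟩ : ∃ t₀ : ℕ, t₀ = t₁ + p * N₁ := ⟨_, rfl⟩
  have ht₀1 : t₁ + N₁ ≤ t₀ := by
    rw [ht₀]
    have : N₁ ≤ p * N₁ := Nat.le_mul_of_pos_left _ hp
    omega
  have ht₀2 : t₀ + N₁ ≤ t₂ := by
    have h1 : N₁ ≤ p * N₁ := Nat.le_mul_of_pos_left _ hp
    have h2 : p * N₁ + p * N₁ ≤ p * π * D := by
      calc p * N₁ + p * N₁ = p * 1 * (2 * N₁) := by ring
        _ ≤ p * π * D := Nat.mul_le_mul (Nat.mul_le_mul_left _ hπ) (by omega)
    omega
  have hpt0 : ∃ e : ℕ, t₀ = e * p := ⟨m * (π * D) + N₁, by rw [ht₀, ht₁]; ring⟩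
  obtain ⟨e, he⟩ := hpt0
  -- periodicity
  have hper' : ∀ (e : ℕ) (i : ℤ), x (i + (e : ℤ) * p) = x i := by
    intro e
    induction e with
    | zero => intro i; simp
    | succ e ih =>
      intro i
      have : i + ((e + 1 : ℕ) : ℤ) * p = (i + (e : ℤ) * p) + p := by push_cast; ring
      rw [this, hper, ih]
  have hxt : ∀ t : ℕ, x ((t : ℤ) - t₀) = x' t := by
    intro t
    rw [hx', ← hper' e ((t:ℤ) - t₀)]
    congr 1
    rw [he]; push_cast; ring
  -- the vector orbit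
  have hcex : ∀ t : ℕ, ∃ c : V k, E t c = θ (x' t) (v ((t : ℤ) - t₀)) := fun t => iso_surj (hE t) _
  choose c hc using hcex
  have hcn : ∀ t, ‖c t‖ = ‖θ (x' t) (v ((t : ℤ) - t₀))‖ := by
    intro t; rw [← hc, hE]
  have hcs : ∀ t, c (t + 1) = R t (c t) := by
    intro t
    apply iso_inj (hE (t + 1))
    rw [hc, ← hmap', hc, ContinuousLinearEquiv.symm_apply_apply, ← horb']
    congr 1
    have h1 := hv ((t : ℤ) - t₀)
    rw [hxt] at h1
    rw [← h1]
    congr 1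
    push_cast; ring
  have hc0 : c t₀ ≠ 0 := by
    intro h
    have h1 := hcn t₀
    rw [h, norm_zero] at h1
    have h2 := norm_eq_zero.1 h1.symm
    rw [sub_self] at h2
    have h3 := (map_eq_zero_iff _ (θ (x' t₀)).injective).1 h2
    exact hv0 h3
  have hdich : ∀ i : Fin k, (∀ a b, t₁ ≤ a → a ≤ b → b ≤ t₂ →
      κ / π * ((b : ℝ) - a) - (C + κ + 2 * π * Real.log L) ≤ gr R i b - gr R i a) ∨
    (∀ a b, t₁ ≤ a → a ≤ b → b ≤ t₂ →
      gr R i b - gr R i a ≤ (C + κ + 2 * π * Real.log L) - κ / π * ((b : ℝ) - a)) := by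
    intro i
    exact dichotomy hSIGN hπ hε hlam hκ hcomb (gr R i) (hgs i) (fun t => col (x' t) (E t)) t₁ t₂
      (by omega) hd12 hcm
      (fun a b h1 h2 h3 h4 h5 h6 => hmain x' E R hch i t₁ t₂ a b hcm hd12 h1 h2 h3 h4 h5 h6)
  obtain ⟨t, h1, h2, h3⟩ := hN₁ R (fun i t => gr R i t) t₁ t₂ t₀ c hRn hR
    (fun t i => by
      show dg (R t) i = Real.exp (gr R i (t + 1) - gr R i t)
      rw [gr_succ, add_sub_cancel_left, Real.exp_log (hdg t i)])
    hdich (fun t _ _ => hcs t) ht₀1 ht₀2 hc0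
  refine ⟨(t : ℤ) - t₀, ?_, ?_⟩
  · rw [abs_le]; constructor <;> omega
  · rw [hcn, hcn, sub_self, ← hxt t₀, sub_self, ← hxt t] at h3
    have h4 := (hKq (x ((t : ℤ) - t₀)) (v ((t : ℤ) - t₀))).2
    have h5 := (hKq (x 0) (v 0)).1
    have h6 : 0 ≤ |ρ| := abs_nonneg ρ
    have hq0 : 0 < q (x 0) (v 0) := hq.pos _ _ hv0
    have h7 : |ρ| * K ^ 2 * ‖θ (x 0) (v 0)‖ ≤ K * q (x ((t : ℤ) - t₀)) (v ((t : ℤ) - t₀)) :=
      h3.trans h4
    have h8 : K * (|ρ| * q (x 0) (v 0)) ≤ |ρ| * K ^ 2 * ‖θ (x 0) (v 0)‖ := by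
      have := mul_le_mul_of_nonneg_left h5 (mul_nonneg hK.le h6)
      calc K * (|ρ| * q (x 0) (v 0)) = K * |ρ| * q (x 0) (v 0) := by ring
        _ ≤ K * |ρ| * (K * ‖θ (x 0) (v 0)‖) := this
        _ = |ρ| * K ^ 2 * ‖θ (x 0) (v 0)‖ := by ring
    have h9 : |ρ| * q (x 0) (v 0) ≤ q (x ((t : ℤ) - t₀)) (v ((t : ℤ) - t₀)) :=
      le_of_mul_le_mul_left (h8.trans h7) hK
    exact (mul_le_mul_of_nonneg_right (le_abs_self ρ) hq0.le).trans h9

end Run7.h499.PR
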